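import Mathlib

set_option autoImplicit false

/-!
Project LB: comparison of two families of weighted point sets with the same limit distribution.
-/

namespace Pool.Agent.U329.LB

open Filter Topology Finset

section

variable {κ : Type*}

/-- the mass of the points up to `t` -/
noncomputable def mass (s : Finset κ) (α τ : κ → ℝ) (t : ℝ) : ℝ :=
  ∑ n ∈ s, if τ n ≤ t then α n else 0

lemma core (s : Finset κ) (α τ : κ → ℝ) {δ K e : ℝ} (hα : ∀ n ∈ s, 0 ≤ α n)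
    (hτ : ∀ n ∈ s, δ < τ n ∧ τ n ≤ K) (φ : ℝ → ℝ) (m : ℕ) (T : ℕ → ℝ) (hT : Monotone T)
    (hT0 : T 0 = δ) (hTm : T m = K)
    (hφ : ∀ i < m, ∀ x, T i ≤ x → x ≤ T (i + 1) → |φ x - φ (T i)| ≤ e) :
    |∑ n ∈ s, α n * φ (τ n) -
      ∑ i ∈ range m, φ (T i) * (mass s α τ (T (i + 1)) - mass s α τ (T i))| ≤
      e * mass s α τ K := by
  have hG : ∑ n ∈ s, α n * φ (τ n) = ∑ i ∈ range m,
      ((∑ n ∈ s, if τ n ≤ T (i + 1) then α n * φ (τ n) else 0) -
        ∑ n ∈ s, if τ n ≤ T i then α n * φ (τ n) else 0) := by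
    rw [Finset.sum_range_sub (fun i => ∑ n ∈ s, if τ n ≤ T i then α n * φ (τ n) else 0), hT0, hTm]
    have h1 : (∑ n ∈ s, if τ n ≤ δ then α n * φ (τ n) else 0) = 0 :=
      Finset.sum_eq_zero fun n hn => if_neg (not_le.2 (hτ n hn).1)
    have h2 : (∑ n ∈ s, if τ n ≤ K then α n * φ (τ n) else 0) = ∑ n ∈ s, α n * φ (τ n) :=
      Finset.sum_congr rfl fun n hn => if_pos (hτ n hn).2
    rw [h1, h2, sub_zero]
  have hM : mass s α τ K = ∑ i ∈ range m, (mass s α τ (T (i + 1)) - mass s α τ (T i)) := by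
    rw [Finset.sum_range_sub (fun i => mass s α τ (T i)), hT0, hTm]
    have h1 : mass s α τ δ = 0 :=
      Finset.sum_eq_zero fun n hn => if_neg (not_le.2 (hτ n hn).1)
    rw [h1, sub_zero]
  rw [hG, hM, ← Finset.sum_sub_distrib, Finset.mul_sum]
  refine (Finset.abs_sum_le_sum_abs _ _).trans (Finset.sum_le_sum fun i hi => ?_)
  have him := Finset.mem_range.1 hi
  have hTi : T i ≤ T (i + 1) := hT (Nat.le_succ i)
  unfold mass
  rw [← Finset.sum_sub_distrib, ← Finset.sum_sub_distrib, Finset.mul_sum, Finset.mul_sum,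
    ← Finset.sum_sub_distrib]
  refine (Finset.abs_sum_le_sum_abs _ _).trans (Finset.sum_le_sum fun n hn => ?_)
  have ha := hα n hn
  by_cases h1 : τ n ≤ T i
  · have h2 : τ n ≤ T (i + 1) := h1.trans hTi
    simp [h1, h2]
  · by_cases h2 : τ n ≤ T (i + 1)
    · have h3 := hφ i him (τ n) (not_le.1 h1).le h2
      simp only [h1, h2, if_true, if_false, sub_zero]
      have h4 : α n * φ (τ n) - φ (T i) * α n = α n * (φ (τ n) - φ (T i)) := by ring
      rw [h4, abs_mul, abs_of_nonneg ha, mul_comm e]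
      gcongr
    · simp [h1, h2]

end

/-- two families of weighted point sets in `(δ, K]` with the same limit distribution -/
theorem compare {ι κ κ' : Type*} {l : Filter ι} (s : ι → Finset κ) (α τ : ι → κ → ℝ)
    (s' : ι → Finset κ') (α' τ' : ι → κ' → ℝ) {δ K : ℝ} (hδK : δ < K)
    (hα : ∀ᶠ h in l, ∀ n ∈ s h, 0 ≤ α h n) (hτ : ∀ᶠ h in l, ∀ n ∈ s h, δ < τ h n ∧ τ h n ≤ K)
    (hα' : ∀ᶠ h in l, ∀ n ∈ s' h, 0 ≤ α' h n)
    (hτ' : ∀ᶠ h in l, ∀ n ∈ s' h, δ < τ' h n ∧ τ' h n ≤ K) (g : ℝ → ℝ)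
    (hF : ∀ t, δ ≤ t → t ≤ K → Tendsto (fun h => mass (s h) (α h) (τ h) t) l (𝓝 (g t)))
    (hF' : ∀ t, δ ≤ t → t ≤ K → Tendsto (fun h => mass (s' h) (α' h) (τ' h) t) l (𝓝 (g t)))
    {φ : ℝ → ℝ} (hφ : ContinuousOn φ (Set.Icc δ K)) :
    Tendsto (fun h => ∑ n ∈ s h, α h n * φ (τ h n) - ∑ n ∈ s' h, α' h n * φ (τ' h n)) l (𝓝 0) := by
  rw [Metric.tendsto_nhds]
  intro ε hε
  have hg0 : 0 ≤ |g K| := abs_nonneg _
  obtain ⟨e, he⟩ : ∃ e : ℝ, e = ε / (4 * (|g K| + 1)) := ⟨_, rfl⟩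
  have he0 : 0 < e := by rw [he]; positivity
  have huc := isCompact_Icc.uniformContinuousOn_of_continuous hφ
  rw [Metric.uniformContinuousOn_iff] at huc
  obtain ⟨η, hη, hφη⟩ := huc e he0
  obtain ⟨m, hm⟩ := exists_nat_gt ((K - δ) / η)
  have hm0 : (0 : ℝ) < m := lt_of_le_of_lt (div_nonneg (by linarith) hη.le) hm
  obtain ⟨w, hw⟩ : ∃ w : ℝ, w = (K - δ) / m := ⟨_, rfl⟩
  have hw0 : 0 < w := by rw [hw]; exact div_pos (by linarith) hm0
  have hwη : w < η := by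
    rw [hw, div_lt_iff₀ hm0]
    rw [div_lt_iff₀ hη] at hm
    linarith
  have hmw : m * w = K - δ := by rw [hw]; field_simp
  obtain ⟨T, hTdef⟩ : ∃ T : ℕ → ℝ, ∀ i, T i = δ + i * w := ⟨_, fun i => rfl⟩
  have hT : Monotone T := by
    intro i j hij
    rw [hTdef, hTdef]
    have : (i : ℝ) ≤ j := by exact_mod_cast hij
    gcongr
  have hT0 : T 0 = δ := by rw [hTdef]; simp
  have hTm : T m = K := by rw [hTdef]; linarith
  have hTmem : ∀ i, i ≤ m → δ ≤ T i ∧ T i ≤ K := fun i hi =>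
    ⟨hT0 ▸ hT (Nat.zero_le i), hTm ▸ hT hi⟩
  have hosc : ∀ i < m, ∀ x, T i ≤ x → x ≤ T (i + 1) → |φ x - φ (T i)| ≤ e := by
    intro i hi x h1 h2
    have h3 := hTmem i hi.le
    have h4 := hTmem (i + 1) hi
    have h5 : T (i + 1) = T i + w := by rw [hTdef, hTdef]; push_cast; ring
    have h6 := hφη x ⟨h3.1.trans h1, h2.trans h4.2⟩ (T i) ⟨h3.1, h3.2⟩ (by
      rw [Real.dist_eq, abs_lt]
      constructor <;> linarith)
    rw [Real.dist_eq] at h6
    exact h6.le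
  have hlim : Tendsto (fun h => ∑ i ∈ range m, φ (T i) *
      (mass (s h) (α h) (τ h) (T (i + 1)) - mass (s h) (α h) (τ h) (T i)) - ∑ i ∈ range m, φ (T i) *
      (mass (s' h) (α' h) (τ' h) (T (i + 1)) - mass (s' h) (α' h) (τ' h) (T i))) l (𝓝 0) := by
    have h1 : Tendsto (fun h => ∑ i ∈ range m, φ (T i) *
        (mass (s h) (α h) (τ h) (T (i + 1)) - mass (s h) (α h) (τ h) (T i))) l
        (𝓝 (∑ i ∈ range m, φ (T i) * (g (T (i + 1)) - g (T i)))) :=
      tendsto_finsetSum _ fun i hi => ((hF _ (hTmem (i + 1) (Finset.mem_range.1 hi)).1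
        (hTmem (i + 1) (Finset.mem_range.1 hi)).2).sub (hF _ (hTmem i (Finset.mem_range.1 hi).le).1
        (hTmem i (Finset.mem_range.1 hi).le).2)).const_mul _
    have h2 : Tendsto (fun h => ∑ i ∈ range m, φ (T i) *
        (mass (s' h) (α' h) (τ' h) (T (i + 1)) - mass (s' h) (α' h) (τ' h) (T i))) l
        (𝓝 (∑ i ∈ range m, φ (T i) * (g (T (i + 1)) - g (T i)))) :=
      tendsto_finsetSum _ fun i hi => ((hF' _ (hTmem (i + 1) (Finset.mem_range.1 hi)).1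
        (hTmem (i + 1) (Finset.mem_range.1 hi)).2).sub (hF' _ (hTmem i (Finset.mem_range.1 hi).le).1
        (hTmem i (Finset.mem_range.1 hi).le).2)).const_mul _
    have h3 := h1.sub h2
    rwa [sub_self] at h3
  rw [Metric.tendsto_nhds] at hlim
  have hgK : g K < |g K| + 1 := by linarith [le_abs_self (g K)]
  have hK1 := (hF K hδK.le le_rfl).eventually_lt_const hgK
  have hK2 := (hF' K hδK.le le_rfl).eventually_lt_const hgK
  filter_upwards [hα, hτ, hα', hτ', hlim (ε / 4) (by positivity), hK1, hK2]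
    with h a1 a2 a3 a4 a5 a6 a7
  have c1 := core (s h) (α h) (τ h) a1 a2 φ m T hT hT0 hTm hosc
  have c2 := core (s' h) (α' h) (τ' h) a3 a4 φ m T hT hT0 hTm hosc
  have e1 : e * mass (s h) (α h) (τ h) K ≤ ε / 4 := by
    calc e * mass (s h) (α h) (τ h) K ≤ e * (|g K| + 1) := by gcongr
      _ = ε / 4 := by rw [he]; field_simp
  have e2 : e * mass (s' h) (α' h) (τ' h) K ≤ ε / 4 := by
    calc e * mass (s' h) (α' h) (τ' h) K ≤ e * (|g K| + 1) := by gcongr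
      _ = ε / 4 := by rw [he]; field_simp
  rw [Real.dist_eq, sub_zero] at a5 ⊢
  have b1 := abs_le.1 (c1.trans e1)
  have b2 := abs_le.1 (c2.trans e2)
  have b3 := abs_lt.1 a5
  rw [abs_lt]
  constructor <;> linarith [b1.1, b1.2, b2.1, b2.2, b3.1, b3.2]

end Pool.Agent.U329.LB
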