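import Mathlib
import Pool.Agent.U581.LB.Stm
import Pool.Agent.U329.LB.Comp

set_option autoImplicit false

/-!
Project LB, package VAR: the variance of the increments.
-/

namespace Pool.Agent.U329.LB

open Real Filter Topology Finset
open Pool.Agent.U581.LB (r2 cf S_RS S_UP S_VAR)

/-- the test function -/
noncomputable def ps (y : ℝ) : ℝ := (1 - cos (2 * π * y)) / (π ^ 2 * y ^ 3)

lemma ps_cont {δ K : ℝ} (hδ : 0 < δ) : ContinuousOn ps (Set.Icc δ K) := by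
  unfold ps
  apply ContinuousOn.div
  · exact (continuous_const.sub (Real.continuous_cos.comp (continuous_const.mul continuous_id))).continuousOn
  · exact (continuous_const.mul (continuous_id.pow 3)).continuousOn
  · intro x hx
    have : 0 < x := hδ.trans_le hx.1
    positivity

lemma ps_nonneg {y : ℝ} (hy : 0 ≤ y) : 0 ≤ ps y := by
  unfold ps
  have := Real.cos_le_one (2 * π * y)
  apply div_nonneg (by linarith) (by positivity)

/-! ### floors -/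

lemma tendsto_div {c : ℝ} (hc : 0 < c) : Tendsto (fun h : ℝ => c / h) (𝓝[>] 0) atTop := by
  have h1 : Tendsto (fun h : ℝ => h⁻¹) (𝓝[>] 0) atTop := tendsto_inv_nhdsGT_zero
  simpa [div_eq_mul_inv] using h1.const_mul_atTop hc

lemma tendsto_div_sq {c : ℝ} (hc : 0 < c) : Tendsto (fun h : ℝ => c / h ^ 2) (𝓝[>] 0) atTop := by
  have h1 : Tendsto (fun h : ℝ => h⁻¹) (𝓝[>] 0) atTop := tendsto_inv_nhdsGT_zero
  have h2 : Tendsto (fun h : ℝ => (h⁻¹) ^ 2) (𝓝[>] 0) atTop :=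
    (tendsto_pow_atTop (by norm_num : (2 : ℕ) ≠ 0)).comp h1
  simpa [div_eq_mul_inv] using h2.const_mul_atTop hc

/-- `h M → d` for `M = ⌊d / h⌋` -/
lemma lim_floor {d : ℝ} (hd : 0 < d) :
    Tendsto (fun h : ℝ => h * (⌊d / h⌋₊ : ℝ)) (𝓝[>] 0) (𝓝 d) := by
  have h1 : Tendsto (fun h : ℝ => (⌊d / h⌋₊ : ℝ) / (d / h)) (𝓝[>] 0) (𝓝 1) :=
    (tendsto_nat_floor_div_atTop (R := ℝ)).comp (tendsto_div hd)
  have h2 := h1.const_mul d
  rw [mul_one] at h2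
  refine h2.congr' ?_
  filter_upwards [self_mem_nhdsWithin] with h hh
  have hh0 : (0 : ℝ) < h := hh
  field_simp

/-- `h² X → t` for `X = ⌊t / h²⌋` -/
lemma lim_floor_sq {t : ℝ} (ht : 0 < t) :
    Tendsto (fun h : ℝ => h ^ 2 * (⌊t / h ^ 2⌋₊ : ℝ)) (𝓝[>] 0) (𝓝 t) := by
  have h1 : Tendsto (fun h : ℝ => (⌊t / h ^ 2⌋₊ : ℝ) / (t / h ^ 2)) (𝓝[>] 0) (𝓝 1) :=
    (tendsto_nat_floor_div_atTop (R := ℝ)).comp (tendsto_div_sq ht)
  have h2 := h1.const_mul t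
  rw [mul_one] at h2
  refine h2.congr' ?_
  filter_upwards [self_mem_nhdsWithin] with h hh
  have hh0 : (0 : ℝ) < h := hh
  field_simp

lemma lim_log : Tendsto (fun h : ℝ => log (1 / h)) (𝓝[>] 0) atTop :=
  Real.tendsto_log_atTop.comp (tendsto_div one_pos)

/-- the cumulative sum -/
noncomputable def A (X : ℕ) : ℝ := ∑ n ∈ Finset.Ioc 0 X, r2 n ^ 2

lemma A_eq (X : ℕ) : A X = ∑ n ∈ Finset.Icc 1 X, r2 n ^ 2 := by
  unfold A
  rfl

/-- the weight of the first family -/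
noncomputable def wt (h : ℝ) : ℝ := h ^ 2 / (8 * log (1 / h))

lemma lim_A (hRS : S_RS) {t : ℝ} (ht : 0 < t) :
    Tendsto (fun h : ℝ => wt h * A ⌊t / h ^ 2⌋₊) (𝓝[>] 0) (𝓝 t) := by
  have hX : Tendsto (fun h : ℝ => ⌊t / h ^ 2⌋₊) (𝓝[>] 0) atTop :=
    tendsto_nat_floor_atTop.comp (tendsto_div_sq ht)
  have h1 := hRS.comp hX
  have h2 := lim_floor_sq ht
  have h3 : Tendsto (fun h : ℝ => log (⌊t / h ^ 2⌋₊ : ℝ) / log (1 / h)) (𝓝[>] 0) (𝓝 2) := by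
    have h4 : Tendsto (fun h : ℝ => log (h ^ 2 * (⌊t / h ^ 2⌋₊ : ℝ))) (𝓝[>] 0) (𝓝 (log t)) :=
      (Real.continuousAt_log ht.ne').tendsto.comp h2
    have h5 := (h4.div_atTop lim_log).add_const 2
    rw [zero_add] at h5
    refine h5.congr' ?_
    filter_upwards [self_mem_nhdsWithin, hX.eventually_ge_atTop 1, lim_log.eventually_gt_atTop 0]
      with h hh hX1 hL
    have hh0 : (0 : ℝ) < h := hh
    have hX0 : (0 : ℝ) < (⌊t / h ^ 2⌋₊ : ℝ) := by exact_mod_cast hX1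
    rw [Real.log_mul (by positivity) hX0.ne', Real.log_pow, one_div, Real.log_inv]
    rw [one_div, Real.log_inv] at hL
    have hl : log h ≠ 0 := by
      intro h0
      rw [h0] at hL
      simp at hL
    field_simp
    push_cast
    ring
  have h6 := ((h1.mul h2).mul h3).div_const 8
  have h7 : (4 : ℝ) * t * 2 / 8 = t := by ring
  rw [h7] at h6
  refine h6.congr' ?_
  filter_upwards [self_mem_nhdsWithin, hX.eventually_ge_atTop 2, lim_log.eventually_gt_atTop 0]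
    with h hh hX2 hL
  have hh0 : (0 : ℝ) < h := hh
  have hX2' : (2 : ℝ) ≤ (⌊t / h ^ 2⌋₊ : ℝ) := by exact_mod_cast hX2
  have hlX : 0 < log (⌊t / h ^ 2⌋₊ : ℝ) := Real.log_pos (by linarith)
  simp only [Function.comp, wt, A_eq]
  field_simp

lemma lim_B {d : ℝ} (hd : 0 < d) :
    Tendsto (fun h : ℝ => h ^ 2 * ((⌊d / h⌋₊ : ℝ) * ((⌊d / h⌋₊ : ℝ) + 1))) (𝓝[>] 0) (𝓝 (d ^ 2)) := by
  have h1 := lim_floor hd
  have h0 : Tendsto (fun h : ℝ => h) (𝓝[>] 0) (𝓝 0) := tendsto_nhdsWithin_of_tendsto_nhds tendsto_id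
  have h2 := (h1.mul h1).add (h0.mul h1)
  rw [zero_mul, add_zero, ← pow_two] at h2
  refine h2.congr fun h => ?_
  ring

/-! ### the masses -/

lemma mass_one (w : ℝ) {h y k : ℝ} (hh : 0 < h) (hy : 0 ≤ y) (hyk : y ≤ k) {p : ℕ} (hp : p ≤ ⌊y ^ 2 / h ^ 2⌋₊) :
    mass (Finset.Ioc p ⌊k ^ 2 / h ^ 2⌋₊) (fun n => w * r2 n ^ 2) (fun n => √n * h) y =
      w * A ⌊y ^ 2 / h ^ 2⌋₊ - w * A p := by
  have hq : ⌊y ^ 2 / h ^ 2⌋₊ ≤ ⌊k ^ 2 / h ^ 2⌋₊ := by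
    apply Nat.floor_le_floor
    gcongr
  have hiff : ∀ n : ℕ, √n * h ≤ y ↔ n ≤ ⌊y ^ 2 / h ^ 2⌋₊ := by
    intro n
    rw [Nat.le_floor_iff (by positivity), le_div_iff₀ (by positivity)]
    constructor
    · intro h1
      have h2 : (√n * h) ^ 2 ≤ y ^ 2 := by gcongr
      rwa [mul_pow, Real.sq_sqrt (Nat.cast_nonneg n)] at h2
    · intro h1
      apply le_of_sq_le_sq _ hy
      rwa [mul_pow, Real.sq_sqrt (Nat.cast_nonneg n)]
  unfold mass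
  simp only [hiff]
  rw [← Finset.sum_Ioc_consecutive _ hp hq]
  have h1 : (∑ n ∈ Finset.Ioc ⌊y ^ 2 / h ^ 2⌋₊ ⌊k ^ 2 / h ^ 2⌋₊,
      if n ≤ ⌊y ^ 2 / h ^ 2⌋₊ then w * r2 n ^ 2 else 0) = 0 :=
    Finset.sum_eq_zero fun n hn => if_neg (not_le.2 (Finset.mem_Ioc.1 hn).1)
  have h2 : (∑ n ∈ Finset.Ioc p ⌊y ^ 2 / h ^ 2⌋₊,
      if n ≤ ⌊y ^ 2 / h ^ 2⌋₊ then w * r2 n ^ 2 else 0) =
      ∑ n ∈ Finset.Ioc p ⌊y ^ 2 / h ^ 2⌋₊, w * r2 n ^ 2 :=
    Finset.sum_congr rfl fun n hn => if_pos (Finset.mem_Ioc.1 hn).2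
  rw [h1, h2, add_zero, ← Finset.mul_sum, ← mul_sub]
  congr 1
  unfold A
  rw [← Finset.sum_Ioc_consecutive _ (Nat.zero_le p) hp]
  ring

lemma sum_two (b : ℕ) : ∑ m ∈ Finset.Ioc 0 b, (2 * (m : ℝ)) = (b : ℝ) * (b + 1) := by
  induction b with
  | zero => simp
  | succ b ih =>
    rw [Finset.sum_Ioc_succ_top (Nat.zero_le b), ih]
    push_cast
    ring

lemma mass_two {h y k : ℝ} (hh : 0 < h) (hy : 0 ≤ y) (hyk : y ≤ k) {p : ℕ} (hp : p ≤ ⌊y / h⌋₊) :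
    mass (Finset.Ioc p ⌊k / h⌋₊) (fun m => h ^ 2 * (2 * (m : ℝ))) (fun m => m * h) y =
      h ^ 2 * ((⌊y / h⌋₊ : ℝ) * ((⌊y / h⌋₊ : ℝ) + 1)) - h ^ 2 * ((p : ℝ) * (p + 1)) := by
  have hq : ⌊y / h⌋₊ ≤ ⌊k / h⌋₊ := by
    apply Nat.floor_le_floor
    gcongr
  have hiff : ∀ n : ℕ, (n : ℝ) * h ≤ y ↔ n ≤ ⌊y / h⌋₊ := by
    intro n
    rw [Nat.le_floor_iff (by positivity), le_div_iff₀ (by positivity)]
  unfold mass
  simp only [hiff]
  rw [← Finset.sum_Ioc_consecutive _ hp hq]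
  have h1 : (∑ n ∈ Finset.Ioc ⌊y / h⌋₊ ⌊k / h⌋₊,
      if n ≤ ⌊y / h⌋₊ then h ^ 2 * (2 * (n : ℝ)) else 0) = 0 :=
    Finset.sum_eq_zero fun n hn => if_neg (not_le.2 (Finset.mem_Ioc.1 hn).1)
  have h2 : (∑ n ∈ Finset.Ioc p ⌊y / h⌋₊,
      if n ≤ ⌊y / h⌋₊ then h ^ 2 * (2 * (n : ℝ)) else 0) =
      ∑ n ∈ Finset.Ioc p ⌊y / h⌋₊, h ^ 2 * (2 * (n : ℝ)) :=
    Finset.sum_congr rfl fun n hn => if_pos (Finset.mem_Ioc.1 hn).2
  rw [h1, h2, add_zero, ← Finset.mul_sum, ← mul_sub]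
  congr 1
  rw [← sum_two, ← sum_two, ← Finset.sum_Ioc_consecutive _ (Nat.zero_le p) hp]
  ring

/-- the middle parts of the two sums are close -/
lemma middle (hRS : S_RS) {d k : ℝ} (hd : 0 < d) (hdk : d < k) :
    Tendsto (fun h : ℝ => ∑ n ∈ Finset.Ioc ⌊d ^ 2 / h ^ 2⌋₊ ⌊k ^ 2 / h ^ 2⌋₊, wt h * r2 n ^ 2 * ps (√n * h) -
      ∑ m ∈ Finset.Ioc ⌊d / h⌋₊ ⌊k / h⌋₊, h ^ 2 * (2 * (m : ℝ)) * ps (m * h)) (𝓝[>] 0) (𝓝 0) := by
  have hk : 0 < k := hd.trans hdk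
  refine compare (δ := d) (K := k) (fun h => Finset.Ioc ⌊d ^ 2 / h ^ 2⌋₊ ⌊k ^ 2 / h ^ 2⌋₊)
    (fun h n => wt h * r2 n ^ 2) (fun h n => √n * h) (fun h => Finset.Ioc ⌊d / h⌋₊ ⌊k / h⌋₊)
    (fun h m => h ^ 2 * (2 * (m : ℝ))) (fun h m => (m : ℝ) * h) hdk ?_ ?_ ?_ ?_
    (fun y => y ^ 2 - d ^ 2) ?_ ?_ (ps_cont hd)
  · filter_upwards [lim_log.eventually_gt_atTop 0] with h hL n _
    unfold wt
    positivity
  · filter_upwards [self_mem_nhdsWithin] with h hh n hn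
    have hh0 : (0 : ℝ) < h := hh
    rw [Finset.mem_Ioc, Nat.floor_lt (by positivity), Nat.le_floor_iff (by positivity),
      div_lt_iff₀ (by positivity), le_div_iff₀ (by positivity)] at hn
    constructor
    · apply lt_of_pow_lt_pow_left₀ 2 (by positivity)
      rw [mul_pow, Real.sq_sqrt (Nat.cast_nonneg n)]
      exact hn.1
    · apply le_of_sq_le_sq _ hk.le
      rw [mul_pow, Real.sq_sqrt (Nat.cast_nonneg n)]
      exact hn.2
  · filter_upwards with h n _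
    positivity
  · filter_upwards [self_mem_nhdsWithin] with h hh n hn
    have hh0 : (0 : ℝ) < h := hh
    rw [Finset.mem_Ioc, Nat.floor_lt (by positivity), Nat.le_floor_iff (by positivity),
      div_lt_iff₀ (by positivity), le_div_iff₀ (by positivity)] at hn
    exact hn
  · intro y h1 h2
    have hy : 0 < y := hd.trans_le h1
    have h3 := (lim_A hRS (t := y ^ 2) (by positivity)).sub (lim_A hRS (t := d ^ 2) (by positivity))
    refine h3.congr' ?_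
    filter_upwards [self_mem_nhdsWithin] with h hh
    have hh0 : (0 : ℝ) < h := hh
    refine (mass_one (wt h) hh0 hy.le h2 ?_).symm
    apply Nat.floor_le_floor
    gcongr
  · intro y h1 h2
    have hy : 0 < y := hd.trans_le h1
    have h3 := (lim_B hy).sub (lim_B hd)
    refine h3.congr' ?_
    filter_upwards [self_mem_nhdsWithin] with h hh
    have hh0 : (0 : ℝ) < h := hh
    refine (mass_two hh0 hy.le h2 ?_).symm
    apply Nat.floor_le_floor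
    gcongr

/-! ### the second sum -/

lemma bern_two (x : ℝ) :
    (Polynomial.map (algebraMap ℚ ℝ) (Polynomial.bernoulli 2)).eval x = x ^ 2 - x + 1 / 6 := by
  rw [Polynomial.bernoulli]
  simp only [Finset.sum_range_succ, Finset.sum_range_zero, Polynomial.map_add, Polynomial.map_monomial,
    Polynomial.eval_add, Polynomial.eval_monomial, zero_add]
  norm_num [bernoulli, bernoulli'_zero, bernoulli'_one, bernoulli'_two, Nat.choose]
  ring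

lemma term_two {h : ℝ} (h0 : 0 < h) (m : ℕ) :
    h ^ 2 * (2 * (m : ℝ)) * ps (m * h) =
      2 / (π ^ 2 * h) * (1 / (m : ℝ) ^ 2 - 1 / (m : ℝ) ^ 2 * cos (2 * π * m * h)) := by
  unfold ps
  rcases Nat.eq_zero_or_pos m with rfl | hm
  · simp
  have hm0 : (0 : ℝ) < m := by exact_mod_cast hm
  have e1 : 2 * π * ((m : ℝ) * h) = 2 * π * m * h := by ring
  rw [e1]
  field_simp

lemma hasSum_cos {h : ℝ} (h0 : 0 < h) (h1 : h ≤ 1) :
    HasSum (fun m : ℕ => h ^ 2 * (2 * (m : ℝ)) * ps (m * h)) (2 * (1 - h)) := by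
  have e1 := hasSum_one_div_nat_pow_mul_cos (k := 1) one_ne_zero (x := h) ⟨h0.le, h1⟩
  have e2 := hasSum_zeta_two
  have e3 := (e2.sub e1).mul_left (2 / (π ^ 2 * h))
  have e4 : (fun m : ℕ => h ^ 2 * (2 * (m : ℝ)) * ps (m * h)) =
      fun m : ℕ => 2 / (π ^ 2 * h) * (1 / (m : ℝ) ^ 2 - 1 / (m : ℝ) ^ (2 * 1) * cos (2 * π * m * h)) := by
    funext m
    rw [term_two h0]
  rw [e4]
  have e5 : 2 * (1 - h) = 2 / (π ^ 2 * h) * (π ^ 2 / 6 - (-1 : ℝ) ^ (1 + 1) * (2 * π) ^ (2 * 1) / 2 /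
      ((2 * 1).factorial : ℝ) * (Polynomial.map (algebraMap ℚ ℝ) (Polynomial.bernoulli (2 * 1))).eval h) := by
    rw [mul_one, bern_two]
    have hf : ((2 : ℕ).factorial : ℝ) = 2 := by norm_num [Nat.factorial]
    rw [hf]
    field_simp
    ring
  rw [e5]
  exact e3

lemma term_two_nonneg {h : ℝ} (h0 : 0 < h) (m : ℕ) : 0 ≤ h ^ 2 * (2 * (m : ℝ)) * ps (m * h) := by
  have := ps_nonneg (y := m * h) (by positivity)
  positivity

lemma term_two_le {h : ℝ} (h0 : 0 < h) (m : ℕ) :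
    h ^ 2 * (2 * (m : ℝ)) * ps (m * h) ≤ 4 / (π ^ 2 * h) * ((m : ℝ) ^ 2)⁻¹ := by
  rw [term_two h0]
  have h1 := Real.neg_one_le_cos (2 * π * m * h)
  have h2 : (0 : ℝ) ≤ ((m : ℝ) ^ 2)⁻¹ := by positivity
  have h3 : 1 / (m : ℝ) ^ 2 - 1 / (m : ℝ) ^ 2 * cos (2 * π * m * h) ≤ 2 * ((m : ℝ) ^ 2)⁻¹ := by
    rw [one_div]
    nlinarith
  calc 2 / (π ^ 2 * h) * (1 / (m : ℝ) ^ 2 - 1 / (m : ℝ) ^ 2 * cos (2 * π * m * h))
      ≤ 2 / (π ^ 2 * h) * (2 * ((m : ℝ) ^ 2)⁻¹) := by gcongr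
    _ = _ := by ring

lemma term_two_small {h : ℝ} (h0 : 0 < h) (m : ℕ) :
    h ^ 2 * (2 * (m : ℝ)) * ps (m * h) ≤ 4 * h := by
  rw [term_two h0]
  rcases Nat.eq_zero_or_pos m with rfl | hm
  · simp; exact h0.le
  have hm0 : (0 : ℝ) < m := by exact_mod_cast hm
  have h1 := Real.one_sub_sq_div_two_le_cos (x := 2 * π * m * h)
  have h2 : (0 : ℝ) ≤ ((m : ℝ) ^ 2)⁻¹ := by positivity
  have h3 : 1 / (m : ℝ) ^ 2 - 1 / (m : ℝ) ^ 2 * cos (2 * π * m * h) ≤ 2 * π ^ 2 * h ^ 2 := by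
    rw [one_div]
    have h4 : ((m : ℝ) ^ 2)⁻¹ * (1 - cos (2 * π * m * h)) ≤
        ((m : ℝ) ^ 2)⁻¹ * ((2 * π * m * h) ^ 2 / 2) := by
      gcongr
      linarith
    have h5 : ((m : ℝ) ^ 2)⁻¹ * ((2 * π * m * h) ^ 2 / 2) = 2 * π ^ 2 * h ^ 2 := by
      field_simp
    linarith
  calc 2 / (π ^ 2 * h) * (1 / (m : ℝ) ^ 2 - 1 / (m : ℝ) ^ 2 * cos (2 * π * m * h))
      ≤ 2 / (π ^ 2 * h) * (2 * π ^ 2 * h ^ 2) := by gcongr
    _ = 4 * h := by field_simp; norm_num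

/-- the second sum without its ends -/
lemma second {d k h : ℝ} (hd : 0 < d) (hdk : d < k) (hk : 1 ≤ k) (h0 : 0 < h) (h1 : h ≤ 1 / 2) :
    |∑ m ∈ Finset.Ioc ⌊d / h⌋₊ ⌊k / h⌋₊, h ^ 2 * (2 * (m : ℝ)) * ps (m * h) - 2| ≤
      2 * h + 4 * d + 8 / k := by
  have hk0 : 0 < k := hd.trans hdk
  have hkh : 1 ≤ k / (2 * h) := by
    rw [le_div_iff₀ (by positivity)]
    linarith
  obtain ⟨a, ha⟩ : ∃ a : ℕ, a = ⌊d / h⌋₊ := ⟨_, rfl⟩
  obtain ⟨b, hb⟩ : ∃ b : ℕ, b = ⌊k / h⌋₊ := ⟨_, rfl⟩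
  have hab : a ≤ b := by
    rw [ha, hb]
    apply Nat.floor_le_floor
    gcongr
  have hbk : k / (2 * h) ≤ b := by
    have h2 := Nat.lt_floor_add_one (k / h)
    have h3 : k / h = 2 * (k / (2 * h)) := by field_simp
    rw [← hb, h3] at h2
    linarith
  have had : (a : ℝ) * h ≤ d := by
    have h2 := Nat.floor_le (a := d / h) (by positivity)
    rw [← ha, le_div_iff₀ h0] at h2
    exact h2
  rw [← ha, ← hb]
  have hs := hasSum_cos h0 (by linarith)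
  -- the first part
  have p1 : ∑ m ∈ Finset.Ioc 0 a, h ^ 2 * (2 * (m : ℝ)) * ps (m * h) ≤ 4 * d := by
    refine (Finset.sum_le_sum fun m _ => term_two_small h0 m).trans ?_
    rw [Finset.sum_const, Nat.card_Ioc, nsmul_eq_mul, Nat.sub_zero]
    linarith
  have p0 : 0 ≤ ∑ m ∈ Finset.Ioc 0 a, h ^ 2 * (2 * (m : ℝ)) * ps (m * h) :=
    Finset.sum_nonneg fun m _ => term_two_nonneg h0 m
  have hb0 : b ≠ 0 := by
    rintro rfl
    norm_num at hbk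
    linarith
  have hb1 : (1 : ℝ) ≤ b := hkh.trans hbk
  -- the last part
  have hpart : ∀ N : ℕ, b ≤ N → ∑ m ∈ Finset.range (N + 1), h ^ 2 * (2 * (m : ℝ)) * ps (m * h) ≤
      (∑ m ∈ Finset.Ioc 0 b, h ^ 2 * (2 * (m : ℝ)) * ps (m * h)) + 8 / k := by
    intro N hN
    have e1 : ∑ m ∈ Finset.range (N + 1), h ^ 2 * (2 * (m : ℝ)) * ps (m * h) =
        ∑ m ∈ Finset.Ioc 0 N, h ^ 2 * (2 * (m : ℝ)) * ps (m * h) := by
      rw [Finset.sum_range_succ']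
      have e2 : h ^ 2 * (2 * ((0 : ℕ) : ℝ)) * ps (((0 : ℕ) : ℝ) * h) = 0 := by simp
      rw [e2, add_zero]
      exact Finset.sum_bij (fun i _ => i + 1)
        (fun i hi => by simp only [Finset.mem_range, Finset.mem_Ioc] at *; omega)
        (fun i _ j _ hij => by omega)
        (fun j hj => ⟨j - 1, by simp only [Finset.mem_range, Finset.mem_Ioc] at *; omega,
          by simp only [Finset.mem_Ioc] at hj; omega⟩)
        (fun i _ => rfl)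
    rw [e1, ← Finset.sum_Ioc_consecutive _ (Nat.zero_le b) hN]
    gcongr
    refine (Finset.sum_le_sum fun m _ => term_two_le h0 m).trans ?_
    rw [← Finset.mul_sum]
    have e3 := sum_Ioc_inv_sq_le_sub (α := ℝ) hb0 hN
    have e4 : (b : ℝ)⁻¹ ≤ 2 * h / k := by
      rw [inv_le_comm₀ (by positivity) (by positivity), inv_div]
      exact hbk
    have e5 : (0 : ℝ) ≤ (N : ℝ)⁻¹ := by positivity
    calc 4 / (π ^ 2 * h) * ∑ i ∈ Finset.Ioc b N, ((i : ℝ) ^ 2)⁻¹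
        ≤ 4 / (π ^ 2 * h) * (2 * h / k) := by
          gcongr
          linarith
      _ = 8 / k * (1 / π ^ 2) := by field_simp; norm_num
      _ ≤ 8 / k * 1 := by
          gcongr
          rw [div_le_one (by positivity)]
          have := Real.pi_gt_three
          nlinarith
      _ = 8 / k := mul_one _
  have hlim := hs.tendsto_sum_nat
  have p2 : 2 * (1 - h) ≤ (∑ m ∈ Finset.Ioc 0 b, h ^ 2 * (2 * (m : ℝ)) * ps (m * h)) + 8 / k := by
    refine le_of_tendsto hlim ?_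
    filter_upwards [eventually_ge_atTop (b + 1)] with N hN
    obtain ⟨N', rfl⟩ : ∃ N', N = N' + 1 := ⟨N - 1, by omega⟩
    exact hpart N' (by omega)
  have p3 : ∑ m ∈ Finset.Ioc 0 b, h ^ 2 * (2 * (m : ℝ)) * ps (m * h) ≤ 2 * (1 - h) :=
    sum_le_hasSum _ (fun m _ => term_two_nonneg h0 m) hs
  rw [← Finset.sum_Ioc_consecutive _ (Nat.zero_le a) hab] at p2 p3
  have hk8 : 0 < 8 / k := by positivity
  rw [abs_le]
  constructor <;> linarith

/-! ### the first sum -/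

lemma cf_sq {n : ℕ} (hn : 0 < n) : cf n ^ 2 = r2 n ^ 2 / (π ^ 2 * √n ^ 3) := by
  have hn0 : (0 : ℝ) < n := by exact_mod_cast hn
  unfold cf
  rw [mul_pow, div_pow]
  have e1 : ((n : ℝ) ^ (-(3 / 4) : ℝ)) ^ 2 = (√n ^ 3)⁻¹ := by
    rw [Real.sqrt_eq_rpow, ← Real.rpow_natCast, ← Real.rpow_natCast, ← Real.rpow_mul hn0.le,
      ← Real.rpow_mul hn0.le, ← Real.rpow_neg hn0.le]
    norm_num
  rw [e1]
  field_simp

lemma term_one {h : ℝ} (h0 : 0 < h) (hL : log (1 / h) ≠ 0) {n : ℕ} (hn : 0 < n) :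
    cf n ^ 2 * (1 - cos (2 * π * (√n * h))) =
      8 * (h * log (1 / h)) * (wt h * r2 n ^ 2 * ps (√n * h)) := by
  have hn0 : (0 : ℝ) < n := by exact_mod_cast hn
  have hs : 0 < √(n : ℝ) := Real.sqrt_pos.2 hn0
  rw [cf_sq hn]
  unfold wt ps
  field_simp

lemma cf_sq_nonneg (n : ℕ) : 0 ≤ cf n ^ 2 := sq_nonneg _

lemma one_sub_cos_le (n : ℕ) (h : ℝ) : 1 - cos (2 * π * (√n * h)) ≤ 2 * π ^ 2 * (n * h ^ 2) := by
  have h1 := Real.one_sub_sq_div_two_le_cos (x := 2 * π * (√n * h))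
  have h2 : (2 * π * (√n * h)) ^ 2 / 2 = 2 * π ^ 2 * (n * h ^ 2) := by
    rw [mul_pow, mul_pow, mul_pow, Real.sq_sqrt (Nat.cast_nonneg n)]
    ring
  linarith

/-- the small `n` -/
lemma first_small {C : ℝ} (hC : 0 < C) (hUP : ∀ (N : ℕ) (h : ℝ), 0 < h → h ≤ 1 →
    ∑ n ∈ Finset.Icc 1 N, cf n ^ 2 * min 2 (2 * π ^ 2 * (n * h ^ 2)) ≤ C * (h * (1 + log (1 / h))))
    {d h : ℝ} (hd : 0 < d) (hd1 : π * d ≤ 1) (h0 : 0 < h) (h1 : h ≤ π * d) (hL : 1 ≤ log (1 / h)) :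
    ∑ n ∈ Finset.Ioc 0 ⌊d ^ 2 / h ^ 2⌋₊, cf n ^ 2 * (1 - cos (2 * π * (√n * h))) ≤
      2 * π * C * d * (h * log (1 / h)) := by
  obtain ⟨h', hh'⟩ : ∃ h' : ℝ, h' = h / (π * d) := ⟨_, rfl⟩
  have hπ := Real.pi_pos
  have h'0 : 0 < h' := by rw [hh']; positivity
  have h'1 : h' ≤ 1 := by rw [hh']; exact div_le_one_of_le₀ h1 (by positivity)
  have key := hUP ⌊d ^ 2 / h ^ 2⌋₊ h' h'0 h'1
  have hlog : log (1 / h') ≤ log (1 / h) := by
    apply Real.log_le_log (by positivity)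
    rw [hh', one_div_div]
    gcongr
  have e1 : ∑ n ∈ Finset.Ioc 0 ⌊d ^ 2 / h ^ 2⌋₊, cf n ^ 2 * (1 - cos (2 * π * (√n * h))) ≤
      π ^ 2 * d ^ 2 * ∑ n ∈ Finset.Icc 1 ⌊d ^ 2 / h ^ 2⌋₊, cf n ^ 2 * min 2 (2 * π ^ 2 * (n * h' ^ 2)) := by
    rw [Finset.mul_sum]
    refine Finset.sum_le_sum fun n hn => ?_
    rw [Finset.mem_Ioc, Nat.le_floor_iff (by positivity), le_div_iff₀ (by positivity)] at hn
    have e2 : 2 * π ^ 2 * (n * h' ^ 2) = 2 * (n * h ^ 2) / d ^ 2 := by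
      rw [hh']
      field_simp
    have e3 : 2 * (n * h ^ 2) / d ^ 2 ≤ 2 := by
      rw [div_le_iff₀ (by positivity)]
      linarith [hn.2]
    rw [e2, min_eq_right e3]
    have e4 := one_sub_cos_le n h
    calc cf n ^ 2 * (1 - cos (2 * π * (√n * h))) ≤ cf n ^ 2 * (2 * π ^ 2 * (n * h ^ 2)) := by gcongr
      _ = π ^ 2 * d ^ 2 * (cf n ^ 2 * (2 * (n * h ^ 2) / d ^ 2)) := by field_simp
  calc _ ≤ _ := e1
    _ ≤ π ^ 2 * d ^ 2 * (C * (h' * (1 + log (1 / h')))) := by gcongr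
    _ ≤ π ^ 2 * d ^ 2 * (C * (h' * (2 * log (1 / h)))) := by
        gcongr
        linarith
    _ = _ := by
        rw [hh']
        field_simp

/-- the large `n` -/
lemma first_large {C : ℝ} (hC : 0 < C) (hUP : ∀ (N : ℕ) (h : ℝ), 0 < h → h ≤ 1 →
    ∑ n ∈ Finset.Icc 1 N, cf n ^ 2 * min 2 (2 * π ^ 2 * (n * h ^ 2)) ≤ C * (h * (1 + log (1 / h))))
    {k h : ℝ} (hk : 1 ≤ k) (h0 : 0 < h) (h1 : h ≤ 1) (hL : 1 ≤ log (1 / h))
    (hLk : log k ≤ log (1 / h)) (N : ℕ) :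
    ∑ n ∈ Finset.Ioc ⌊k ^ 2 / h ^ 2⌋₊ N, cf n ^ 2 * (1 - cos (2 * π * (√n * h))) ≤
      3 * C / k * (h * log (1 / h)) := by
  obtain ⟨h', hh'⟩ : ∃ h' : ℝ, h' = h / k := ⟨_, rfl⟩
  have hπ := Real.pi_gt_three
  have hk0 : 0 < k := by linarith
  have h'0 : 0 < h' := by rw [hh']; positivity
  have h'1 : h' ≤ 1 := by rw [hh']; exact div_le_one_of_le₀ (h1.trans hk) (by positivity)
  have key := hUP N h' h'0 h'1
  have hlog : log (1 / h') = log k + log (1 / h) := by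
    rw [← Real.log_mul (by positivity) (by positivity), hh', one_div_div]
    congr 1
    field_simp
  have e1 : ∑ n ∈ Finset.Ioc ⌊k ^ 2 / h ^ 2⌋₊ N, cf n ^ 2 * (1 - cos (2 * π * (√n * h))) ≤
      ∑ n ∈ Finset.Icc 1 N, cf n ^ 2 * min 2 (2 * π ^ 2 * (n * h' ^ 2)) := by
    refine (Finset.sum_le_sum (g := fun n : ℕ => cf n ^ 2 * min 2 (2 * π ^ 2 * (n * h' ^ 2)))
      fun n hn => ?_).trans (Finset.sum_le_sum_of_subset_of_nonneg ?_ fun n _ _ => ?_)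
    · rw [Finset.mem_Ioc, Nat.floor_lt (by positivity), div_lt_iff₀ (by positivity)] at hn
      have e3 : (2 : ℝ) ≤ 2 * π ^ 2 * (n * h' ^ 2) := by
        have e4 : 1 ≤ (n : ℝ) * h' ^ 2 := by
          rw [hh', div_pow, ← mul_div_assoc, le_div_iff₀ (by positivity)]
          linarith [hn.1]
        nlinarith
      rw [min_eq_left e3]
      have e5 := Real.neg_one_le_cos (2 * π * (√n * h))
      have e6 := cf_sq_nonneg n
      nlinarith
    · intro n hn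
      rw [Finset.mem_Ioc] at hn
      rw [Finset.mem_Icc]
      omega
    · have e6 := cf_sq_nonneg n
      have e7 : 0 ≤ min 2 (2 * π ^ 2 * ((n : ℝ) * h' ^ 2)) := le_min (by norm_num) (by positivity)
      positivity
  calc _ ≤ _ := e1
    _ ≤ C * (h' * (1 + log (1 / h'))) := key
    _ ≤ C * (h' * (3 * log (1 / h))) := by
        gcongr
        linarith
    _ = _ := by
        rw [hh']
        field_simp

theorem t_VAR : S_RS → S_UP → S_VAR := by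
  rintro hRS ⟨C, hC, -, hUP⟩ ε hε
  have hπ := Real.pi_gt_three
  -- the parameters
  obtain ⟨e, he⟩ : ∃ e : ℝ, e = ε / 40 := ⟨_, rfl⟩
  have he0 : 0 < e := by rw [he]; positivity
  obtain ⟨d, hd⟩ : ∃ d : ℝ, d = min (1 / π) (e / (4 + 2 * π * C)) := ⟨_, rfl⟩
  have hd0 : 0 < d := by
    rw [hd]
    exact lt_min (by positivity) (by positivity)
  have hd1 : π * d ≤ 1 := by
    have : d ≤ 1 / π := by rw [hd]; exact min_le_left _ _
    rw [le_div_iff₀ (by positivity)] at this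
    linarith
  have hd2 : d * (4 + 2 * π * C) ≤ e := by
    have : d ≤ e / (4 + 2 * π * C) := by rw [hd]; exact min_le_right _ _
    rwa [le_div_iff₀ (by positivity)] at this
  obtain ⟨k, hk⟩ : ∃ k : ℝ, k = max 1 ((8 + 3 * C) / e) := ⟨_, rfl⟩
  have hk1 : 1 ≤ k := by rw [hk]; exact le_max_left _ _
  have hk0 : 0 < k := by linarith
  have hk2 : (8 + 3 * C) / k ≤ e := by
    have : (8 + 3 * C) / e ≤ k := by rw [hk]; exact le_max_right _ _
    rw [div_le_iff₀ he0] at this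
    rw [div_le_iff₀ hk0]
    linarith
  have hdk : d < k := by
    have : d ≤ 1 / π := by rw [hd]; exact min_le_left _ _
    have h2 : 1 / π < 1 := by rw [div_lt_one (by positivity)]; linarith
    linarith
  have hev := (middle hRS hd0 hdk)
  rw [Metric.tendsto_nhds] at hev
  have hev2 : ∀ᶠ h : ℝ in 𝓝[>] 0, 0 < h ∧ h < min (1 / 2) (min (π * d) (e / 2)) := by
    have : (0 : ℝ) < min (1 / 2) (min (π * d) (e / 2)) := by positivity
    filter_upwards [Ioo_mem_nhdsGT this] with h hh using hh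
  have hev3 := ((hev e he0).and hev2).and ((lim_log.eventually_ge_atTop 1).and
    (lim_log.eventually_ge_atTop (log k)))
  rw [eventually_nhdsWithin_iff, Metric.eventually_nhds_iff] at hev3
  obtain ⟨h₁, hh₁, hall⟩ := hev3
  refine ⟨h₁ / 2, by positivity, fun h h0 hle => ?_⟩
  obtain ⟨⟨a1, -, a2⟩, a3, a4⟩ := hall (y := h) (by
    rw [Real.dist_eq, sub_zero, abs_of_pos h0]
    linarith) h0
  have b1 : h < 1 / 2 := a2.trans_le (min_le_left _ _)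
  have b2 : h < π * d := a2.trans_le ((min_le_right _ _).trans (min_le_left _ _))
  have b3 : h < e / 2 := a2.trans_le ((min_le_right _ _).trans (min_le_right _ _))
  refine ⟨⌊k ^ 2 / h ^ 2⌋₊, fun N hN => ?_⟩
  obtain ⟨p, hp⟩ : ∃ p : ℕ, p = ⌊d ^ 2 / h ^ 2⌋₊ := ⟨_, rfl⟩
  obtain ⟨q, hq⟩ : ∃ q : ℕ, q = ⌊k ^ 2 / h ^ 2⌋₊ := ⟨_, rfl⟩
  have hpq : p ≤ q := by
    rw [hp, hq]
    apply Nat.floor_le_floor
    gcongr
  rw [← hq] at hN
  obtain ⟨Λ, hΛ⟩ : ∃ Λ : ℝ, Λ = h * log (1 / h) := ⟨_, rfl⟩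
  have hΛ0 : 0 < Λ := by rw [hΛ]; positivity
  have s1 := first_small hC hUP hd0 hd1 h0 b2.le a3
  have s2 := first_large hC hUP hk1 h0 (by linarith) a3 a4 N
  have s3 := second hd0 hdk hk1 h0 b1.le
  rw [Real.dist_eq, sub_zero] at a1
  rw [← hp, ← hΛ] at s1
  rw [← hq, ← hΛ] at s2
  rw [← hp, ← hq] at a1
  rw [← hΛ]
  have n1 : 0 ≤ ∑ n ∈ Finset.Ioc 0 p, cf n ^ 2 * (1 - cos (2 * π * (√n * h))) :=
    Finset.sum_nonneg fun n _ => mul_nonneg (cf_sq_nonneg n)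
      (by linarith [Real.cos_le_one (2 * π * (√n * h))])
  have n2 : 0 ≤ ∑ n ∈ Finset.Ioc q N, cf n ^ 2 * (1 - cos (2 * π * (√n * h))) :=
    Finset.sum_nonneg fun n _ => mul_nonneg (cf_sq_nonneg n)
      (by linarith [Real.cos_le_one (2 * π * (√n * h))])
  have hmid : ∑ n ∈ Finset.Ioc p q, cf n ^ 2 * (1 - cos (2 * π * (√n * h))) =
      8 * Λ * ∑ n ∈ Finset.Ioc p q, wt h * r2 n ^ 2 * ps (√n * h) := by
    rw [Finset.mul_sum]
    refine Finset.sum_congr rfl fun n hn => ?_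
    rw [Finset.mem_Ioc] at hn
    rw [term_one h0 (by linarith) (by omega), hΛ]
  have hsplit : ∑ n ∈ Finset.Icc 1 N, cf n ^ 2 * (1 - cos (2 * π * (√n * h))) =
      (∑ n ∈ Finset.Ioc 0 p, cf n ^ 2 * (1 - cos (2 * π * (√n * h)))) +
      ((∑ n ∈ Finset.Ioc p q, cf n ^ 2 * (1 - cos (2 * π * (√n * h)))) +
      ∑ n ∈ Finset.Ioc q N, cf n ^ 2 * (1 - cos (2 * π * (√n * h)))) := by
    rw [Finset.sum_Ioc_consecutive _ hpq hN, Finset.sum_Ioc_consecutive _ (Nat.zero_le p) (hpq.trans hN)]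
    rfl
  rw [hsplit, hmid]
  obtain ⟨M1, hM1⟩ : ∃ M1 : ℝ, M1 = ∑ n ∈ Finset.Ioc p q, wt h * r2 n ^ 2 * ps (√n * h) := ⟨_, rfl⟩
  obtain ⟨M2, hM2⟩ : ∃ M2 : ℝ, M2 = ∑ m ∈ Finset.Ioc ⌊d / h⌋₊ ⌊k / h⌋₊, h ^ 2 * (2 * (m : ℝ)) * ps (m * h) :=
    ⟨_, rfl⟩
  rw [← hM1, ← hM2] at a1
  rw [← hM2] at s3
  rw [← hM1]
  have t1 : 2 * h + 4 * d + 8 / k ≤ 3 * e := by
    have u1 : 4 * d ≤ e := by
      have : 0 < d * (2 * π * C) := by positivity
      linarith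
    have u2 : 8 / k ≤ e := by
      refine le_trans ?_ hk2
      gcongr
      linarith
    linarith
  have t2 : |M1 - 2| ≤ 4 * e := by
    have c1 := abs_lt.1 a1
    have c2 := abs_le.1 (s3.trans t1)
    rw [abs_le]
    constructor <;> linarith [c1.1, c1.2, c2.1, c2.2]
  have t3 : 2 * π * C * d * Λ ≤ e * Λ := by
    gcongr
    linarith
  have t4 : 3 * C / k * Λ ≤ e * Λ := by
    have : 3 * C / k ≤ e := by
      refine le_trans ?_ hk2
      gcongr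
      linarith
    gcongr
  have t5 : |8 * Λ * M1 - 16 * Λ| ≤ 32 * e * Λ := by
    have : 8 * Λ * M1 - 16 * Λ = 8 * Λ * (M1 - 2) := by ring
    rw [this, abs_mul, abs_of_pos (by positivity : 0 < 8 * Λ)]
    nlinarith
  have c3 := abs_le.1 t5
  have hεe : ε * Λ = 40 * e * Λ := by rw [he]; ring
  have heΛ : 0 < e * Λ := by positivity
  rw [hεe, abs_le]
  constructor <;> nlinarith [c3.1, c3.2]

end Pool.Agent.U329.LB
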